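import Pool.Agent.Q283.EN.Stm2
import Pool.Agent.Q285.LK.CPL

/-!
# Project EN (helper283), job IDX2: the number of the local classes, quartic twists
-/

set_option autoImplicit false

namespace Pool.Agent.Q149.EN

open NumberField IsDedekindDomain WeierstrassCurve
open Pool.Agent.Q7.LK Pool.Agent.Q283.EN Pool.Agent.Y682 Pool.Agent.Q285.LK
open Pool.Agent.TH841.SH.D (Pt act)

section

variable {F : Type} [Field F] [NumberField F] (v : HeightOneSpectrum (𝓞 F))

/-- every class modulo squares contains elements of `F` -/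
theorem exists_rep (a : v.adicCompletion F) (ha : a ≠ 0) :
    ∃ (b : F) (s : v.adicCompletion F), b ≠ 0 ∧ s ≠ 0 ∧
      algebraMap F (v.adicCompletion F) b = a * s ^ 2 := by
  have h4 : (4 : v.adicCompletion F) ≠ 0 := by
    have e : (4 : v.adicCompletion F) = algebraMap F _ (4 : F) := by
      rw [map_ofNat]
    rw [e]
    exact (map_ne_zero _).2 (by norm_num)
  have hv4 : vv v (4 : v.adicCompletion F) ≠ 0 := (Valuation.ne_zero_iff _).2 h4
  have hva : vv v a ≠ 0 := (Valuation.ne_zero_iff _).2 ha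
  obtain ⟨b, hb⟩ := exists_approx v a (vv v 4 * vv v a) (mul_ne_zero hv4 hva)
  have e1 : algebraMap F (v.adicCompletion F) b / a - 1 =
      (algebraMap F (v.adicCompletion F) b - a) / a := by
    rw [sub_div, div_self ha]
  have h1 : vv v (algebraMap F (v.adicCompletion F) b / a - 1) < vv v 4 := by
    rw [e1, map_div₀]
    exact (div_lt_iff₀ (zero_lt_iff.2 hva)).2 hb
  obtain ⟨s, hs⟩ := exists_sqrt v _ h1
  have h41 : vv v (4 : v.adicCompletion F) ≤ 1 := by
    have := vv_nat v 4
    rwa [Nat.cast_ofNat] at this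
  have h2 : algebraMap F (v.adicCompletion F) b = a * s ^ 2 := by
    rw [hs]
    field_simp
    ring
  have hs0 : s ≠ 0 := by
    rintro rfl
    have h3 : algebraMap F (v.adicCompletion F) b / a - 1 = -1 := by
      rw [h2]
      ring
    rw [h3, Valuation.map_neg, map_one] at h1
    exact absurd h1 (not_lt.2 h41)
  refine ⟨b, s, ?_, hs0, h2⟩
  rintro rfl
  rw [map_zero] at h2
  exact mul_ne_zero ha (pow_ne_zero 2 hs0) h2.symm

end

theorem idx2 : S_CPL → S_QCL → S_QFEND → S_QAP → S_QLOC → S_LIXG → S_VAL → S_IDX2 := by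
  intro hCPL hQCL hQFEND hQAP hQLOC hLIXG hVAL
  -- the integral case
  have key : ∀ (F : Type) [Field F] [NumberField F] (i : F), i ^ 2 = -1 →
      ∀ (v : HeightOneSpectrum (𝓞 F)) (D : F), D ≠ 0 → IsIntegral ℤ D →
      ∃ B : Finset F, 2 ^ (dv 2 v / 2 + 1) ≤ B.card ∧
      (∀ b ∈ B, AQ v D b) ∧ ∀ b ∈ B, ∀ b' ∈ B, b ≠ b' → ¬ Lpw 2 v (b / b') := by
    intro F _ _ i hi v D hD hDi
    classical
    have hf2 : Fact (Nat.Prime 2) := ⟨Nat.prime_two⟩
    have hζ : IsPrimitiveRoot (-1 : F) 2 := IsPrimitiveRoot.neg_one 0 (by norm_num)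
    obtain ⟨e, he, hN⟩ := (hVAL 2 F (-1) hζ (fun _ => ⟨i, hi⟩)).1 v
    obtain ⟨θ, θ', -, -, hker, -, hform, himg⟩ := hQFEND F i D hi hD
    obtain ⟨hcl, -⟩ := hQCL F D hD
    have hD' : algebraMap F (v.adicCompletion F) D ≠ 0 := (map_ne_zero _).2 hD
    have hvi : vv v (algebraMap F (v.adicCompletion F) i) = 1 := by
      have h1 : vv v (algebraMap F (v.adicCompletion F) i) ^ 2 = 1 := by
        rw [← map_pow, ← map_pow, hi, map_neg, map_one, Valuation.map_neg, map_one]
      exact (pow_eq_one_iff_of_nonneg zero_le two_ne_zero).1 h1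
    have hv2 : vv v (2 : v.adicCompletion F) = WithZero.exp (-(2 * (e : ℤ))) := by
      have e2 : (2 : v.adicCompletion F) = algebraMap F _ ((2 : ℕ) : F) := by
        rw [map_natCast, Nat.cast_ofNat]
      rw [e2, vv_coe, he]
    have hvD : vv v (algebraMap F (v.adicCompletion F) D) ≤ 1 := by
      rw [vv_coe]
      exact v.valuation_le_one (⟨D, hDi⟩ : 𝓞 F)
    -- the local index
    have hM : ∃ M : Finset (Pt (EQ D) (v.adicCompletion F)), 2 * 2 ^ (dv 2 v / 2) ≤ M.card ∧
        ∀ P Q : Pt (EQ D) (v.adicCompletion F), P ∈ M → Q ∈ M → P ≠ Q →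
        ∀ R : Pt (EQ D) (v.adicCompletion F), P - Q ≠ θ (v.adicCompletion F) R := by
      have h00 : ((EG 0 D).baseChange (v.adicCompletion F)).toAffine.Nonsingular 0 0 := by
        rw [Affine.nonsingular_iff, Affine.equation_iff]
        constructor
        · change (0 : v.adicCompletion F) ^ 2 + algebraMap F _ 0 * 0 * 0 + algebraMap F _ 0 * 0 =
            0 ^ 3 + algebraMap F _ 0 * 0 ^ 2 + algebraMap F _ D * 0 + algebraMap F _ 0
          rw [map_zero]
          ring
        · left
          change algebraMap F (v.adicCompletion F) 0 * 0 ≠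
            3 * 0 ^ 2 + 2 * algebraMap F _ 0 * 0 + algebraMap F _ D
          rw [map_zero]
          intro h
          apply hD'
          linear_combination -h
      let T : Pt (EG 0 D) (v.adicCompletion F) := Affine.Point.some 0 0 h00
      have hT0 : T ≠ 0 := by
        intro h
        exact Affine.Point.some_ne_zero _ h
      obtain ⟨M, hM1, hM2⟩ := hLIXG F v 0 D isIntegral_zero hDi (by
          rw [zero_pow (by norm_num), mul_zero, add_zero]
          exact mul_ne_zero (by norm_num) (pow_ne_zero 3 hD)) (θ (v.adicCompletion F)) e 1 (by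
        intro x y h hx
        have hx1 : 1 < vv v x := lt_of_lt_of_le (by
          rw [← WithZero.exp_zero]
          exact WithZero.exp_lt_exp.2 (by norm_num)) hx
        have hx0 : x ≠ 0 := by
          rintro rfl
          rw [map_zero] at hx1
          exact not_lt_zero hx1
        have hvx : vv v x ≠ 0 := (Valuation.ne_zero_iff _).2 hx0
        obtain ⟨X, Y, h', hθ, hX⟩ := hform (v.adicCompletion F) x y h hx0
        refine ⟨X, Y, h', hθ, ?_⟩
        have heq : y ^ 2 = x ^ 3 + algebraMap F (v.adicCompletion F) D * x := by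
          have h1 := h.1
          rw [Affine.equation_iff] at h1
          change y ^ 2 + algebraMap F _ 0 * x * y + algebraMap F _ 0 * y =
            x ^ 3 + algebraMap F _ 0 * x ^ 2 + algebraMap F _ D * x + algebraMap F _ 0 at h1
          rw [map_zero] at h1
          linear_combination h1
        have hlt : vv v (algebraMap F (v.adicCompletion F) D * x) < vv v (x ^ 3) := by
          rw [map_mul, map_pow]
          calc vv v (algebraMap F (v.adicCompletion F) D) * vv v x ≤ 1 * vv v x :=
                mul_le_mul' hvD le_rfl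
            _ = vv v x ^ 1 := by rw [one_mul, pow_one]
            _ < vv v x ^ 3 := pow_lt_pow_right₀ hx1 (by norm_num)
        have hvy : vv v (y ^ 2) = vv v x ^ 3 := by
          rw [heq, Valuation.map_add_eq_of_lt_left _ hlt, map_pow]
        have h1 : vv v X * vv v 2 * vv v x ^ 2 = vv v x ^ 3 := by
          rw [← hvy, ← hX, map_mul, map_mul, map_mul, map_pow, hvi, mul_one, mul_assoc]
        have h2 : vv v X * vv v 2 = vv v x := by
          have h3 : vv v X * vv v 2 * vv v x ^ 2 = vv v x * vv v x ^ 2 := by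
            rw [h1]
            exact pow_succ' _ _
          exact mul_right_cancel₀ (pow_ne_zero 2 hvx) h3
        show WithZero.exp (2 * (e : ℤ)) * vv v x ≤ vv v X
        rw [← h2, hv2, mul_comm (vv v X), ← mul_assoc, ← WithZero.exp_add]
        rw [add_neg_cancel, WithZero.exp_zero, one_mul]) {0, T} (by
        intro P hP
        rw [Finset.mem_insert, Finset.mem_singleton] at hP
        rcases hP with rfl | rfl
        · exact map_zero _
        · exact (hker (v.adicCompletion F) T).1.2 (Or.inr ⟨h00, rfl⟩))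
      have hcard : ({0, T} : Finset (Pt (EG 0 D) (v.adicCompletion F))).card = 2 :=
        Finset.card_pair hT0.symm
      rw [hcard, hN] at hM1
      exact ⟨M, hM1, fun P Q hP hQ hPQ R => hM2 P hP Q hQ hPQ R⟩
    obtain ⟨M, hM1, hM2⟩ := hM
    -- representatives
    have hrep : ∀ P : Pt (EQ D) (v.adicCompletion F), ∃ b : F, b ≠ 0 ∧
        CQ D (v.adicCompletion F) P (algebraMap F (v.adicCompletion F) b) := by
      intro P
      obtain ⟨a, ha⟩ := (hcl (v.adicCompletion F) P).1
      obtain ⟨b, s, hb, hs, he⟩ := exists_rep v a ha.1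
      refine ⟨b, hb, ?_⟩
      rw [he]
      exact (hcl (v.adicCompletion F) P).2.1 a s ha hs
    choose f hf0 hf using hrep
    have hone : Lpw 2 v 1 := by
      intro n
      refine ⟨1, ?_⟩
      rw [one_pow, mul_one, sub_self, map_zero]
      exact WithZero.exp_pos
    have hdist : ∀ P Q : Pt (EQ D) (v.adicCompletion F), P ∈ M → Q ∈ M → P ≠ Q →
        ¬ Lpw 2 v (f P / f Q) := by
      intro P Q hP hQ hPQ hL
      obtain ⟨-, s, hs⟩ := (hCPL 2 F v _).1 hL
      rw [cpl_coe, map_div₀] at hs
      set p := algebraMap F (v.adicCompletion F) (f P) with hp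
      set q := algebraMap F (v.adicCompletion F) (f Q) with hq
      have hp0 : p ≠ 0 := (map_ne_zero _).2 (hf0 P)
      have hq0 : q ≠ 0 := (map_ne_zero _).2 (hf0 Q)
      obtain ⟨c, hc⟩ := (hcl (v.adicCompletion F) (-Q)).1
      have h1 := (hcl (v.adicCompletion F) Q).2.2.2 (-Q) q c (hf Q) hc
      have hQQ : (Q + -Q : Pt (EQ D) (v.adicCompletion F)) = 0 := add_neg_cancel Q
      rw [hQQ] at h1
      have h2 : CQ D (v.adicCompletion F) 0 1 := ⟨one_ne_zero, Or.inl ⟨rfl, 1, by ring⟩⟩
      obtain ⟨t, ht0, ht⟩ := (hcl (v.adicCompletion F) 0).2.2.1 1 (q * c) h2 h1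
      have h3 := (hcl (v.adicCompletion F) P).2.2.2 (-Q) p c (hf P) hc
      rw [← sub_eq_add_neg] at h3
      have h4 : p * c = (s * t) ^ 2 := by
        have : p = s ^ 2 * q := (div_eq_iff hq0).1 hs
        rw [this, mul_pow]
        linear_combination s ^ 2 * ht
      have hs0 : s ≠ 0 := by
        rintro rfl
        rw [zero_pow two_ne_zero, div_eq_zero_iff] at hs
        exact hs.elim hp0 hq0
      rw [h4] at h3
      obtain ⟨R, hR⟩ := (himg (v.adicCompletion F) (P - Q) (s * t) (mul_ne_zero hs0 ht0)).1 h3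
      exact hM2 P Q hP hQ hPQ R hR
    have hinj : Set.InjOn f (M : Set (Pt (EQ D) (v.adicCompletion F))) := by
      intro P hP Q hQ h
      by_contra hPQ
      apply hdist P Q hP hQ hPQ
      rw [h, div_self (hf0 Q)]
      exact hone
    refine ⟨M.image f, ?_, ?_, ?_⟩
    · rw [Finset.card_image_of_injOn hinj, pow_succ, mul_comm]
      exact hM1
    · intro b hb
      obtain ⟨P, hP, rfl⟩ := Finset.mem_image.1 hb
      refine (hQAP F v D (f P) hD (hf0 P)).2 ⟨P, ?_⟩
      rw [cpl_coe]
      exact hf P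
    · intro b hb b' hb' hbb
      obtain ⟨P, hP, rfl⟩ := Finset.mem_image.1 hb
      obtain ⟨Q, hQ, rfl⟩ := Finset.mem_image.1 hb'
      exact hdist P Q hP hQ (fun h => hbb (by rw [h]))
  -- reduction to the integral case
  intro F _ _ i hi v D hD
  obtain ⟨n, hn0, hn⟩ : ∃ n : ℤ, n ≠ 0 ∧ IsIntegral ℤ (D * (n : F)) := by
    have h : IsAlgebraic ℤ D :=
      (IsFractionRing.isAlgebraic_iff ℤ ℚ F).2 (Algebra.IsAlgebraic.isAlgebraic D)
    obtain ⟨n, hn0, hn⟩ := h.exists_integral_multiple
    refine ⟨n, hn0, ?_⟩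
    rw [mul_comm, ← zsmul_eq_mul]
    exact hn
  have hnF : (n : F) ≠ 0 := by exact_mod_cast hn0
  obtain ⟨B, h1, h2, h3⟩ := key F i hi v (D * (n : F) ^ 4) (mul_ne_zero hD (pow_ne_zero 4 hnF)) (by
    have e : D * (n : F) ^ 4 = (D * (n : F)) * ((n ^ 3 : ℤ) : F) := by
      push_cast
      ring
    rw [e]
    exact hn.mul (isIntegral_intCast _))
  refine ⟨B, h1, fun b hb => ?_, h3⟩
  have h4 := (hQLOC F i hi v (D * (n : F) ^ 4) (mul_ne_zero hD (pow_ne_zero 4 hnF))).2.1
    (((n : F) ^ 4)⁻¹) b (by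
      intro m
      refine ⟨n, ?_⟩
      rw [inv_mul_cancel₀ (pow_ne_zero 4 hnF), sub_self, map_zero]
      exact WithZero.exp_pos) (h2 b hb)
  rwa [mul_assoc, mul_inv_cancel₀ (pow_ne_zero 4 hnF), mul_one] at h4

end Pool.Agent.Q149.EN
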